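import Pool.Agent.Helper27.BI.S5.St5

/-! # BI5 module PF: pushing a family forward by an embedding -/

set_option autoImplicit false

open scoped Manifold ContDiff Topology ComplexConjugate
open Set Filter Pool.Agent.Helper65.Barb Pool.Agent.Helper18.BI
open Pool.Agent.Helper70.BI (I4 LD NearEq IsW)

namespace Pool.Agent.Helper27.S5

theorem m_PF : StPF := by
  intro ι K A hι hK hA
  obtain ⟨δ, hδs, hδ⟩ := hA1 R4 R4 R4 I4 R4 ι K hK hι.1 hι.2
  have hI := m_Imp R4 R4 I4 R4 ι K
  have hpush : ∀ t : ℝ, imp ι K (fun p => A.f (t, p)) = push δ (fun p => A.f (t, p)) := by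
    intro t
    exact (hI (fun p => A.f (t, p)) hι.2).2.2.2.2.1 δ hδs
      (fun p hp => hδ p (hδs hp)) (fun p hp => A.mapsTo hA t hp) (fun p hp => hA t p hp)
  have h0 : ∀ t y, (A.push δ hK hδs hA).f (t, y) = imp ι K (fun x => A.f (t, x)) y := by
    intro t y
    rw [hpush]
    rfl
  refine ⟨A.push δ hK hδs hA, h0, ?_, ?_⟩
  · intro t x hx
    rw [h0]
    exact (hI (fun p => A.f (t, p)) hι.2).1 x hx
  · intro t y hy
    rw [h0]
    exact (hI (fun p => A.f (t, p)) hι.2).2.1 y hy

end Pool.Agent.Helper27.S5
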