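import Pool.Agent.Helper27.BI.S5.Geo5
import Pool.Agent.Helper27.BI.H.Harc

/-!
# Project BI, stage 5: MODULE D2, the arc datum of the second wall
-/

set_option autoImplicit false
set_option linter.unusedSectionVars false

open scoped Manifold ContDiff Topology ComplexConjugate
open Set Filter Pool.Agent.Helper65.Barb Pool.Agent.Helper18.BI
open Pool.Agent.Helper70.BI (I4 LD NearEq IsW embOn_comp ld_comp ld_iff)
open Pool.Agent.Helper34.BI (rade qe)
open Pool.Agent.Helper27.BI (e1)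
open Pool.Agent.Helper27.H

namespace Pool.Agent.Helper27.S5

namespace D2

section mo
variable {δ' : ℝ} {H : DFam 𝓘(ℝ, R4) R4} {S' M M' : R4 → R4} (hM : MOk δ' H S' M M')
include hM

theorem M_inj {p q : R4} (h : M p = M q) : p = q := by
  rw [← hM.left p, h, hM.left]

theorem M'_inj {p q : R4} (h : M' p = M' q) : p = q := by
  rw [← hM.right p, h, hM.right]

theorem M'_fix {p : R4} (h : M p = p) : M' p = p := by
  conv_lhs => rw [← h]
  exact hM.left p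

theorem M_low {p : R4} (h : rsq 1 p < 1 / 25 - 3 * δ') : M p = p := by
  obtain ⟨ρ, hρ, h1⟩ := hM.low
  exact h1 p (by linarith)

/-- `M` preserves the region -/
theorem M_reg {p : R4} (h0 : 0 ≤ p.1) (h1 : p.1 ≤ 1) (h2 : rsq 1 p ≤ 49 / 100) :
    0 ≤ (M p).1 ∧ (M p).1 ≤ 1 ∧ rsq 1 (M p) ≤ 49 / 100 := by
  by_contra hcon
  have h3 : (M p).1 ≤ 1 / 20 ∨ 19 / 20 ≤ (M p).1 ∨ 49 / 100 ≤ rsq 1 (M p) := by
    by_contra h4
    push Not at h4
    exact hcon ⟨by linarith [h4.1], by linarith [h4.2.1], h4.2.2.le⟩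
  have h4 : M p = p := M_inj hM (hM.out _ h3)
  rw [h4] at hcon
  exact hcon ⟨h0, h1, h2⟩

/-- `M'` preserves the region -/
theorem M'_reg {p : R4} (h0 : 0 ≤ p.1) (h1 : p.1 ≤ 1) (h2 : rsq 1 p ≤ 49 / 100) :
    0 ≤ (M' p).1 ∧ (M' p).1 ≤ 1 ∧ rsq 1 (M' p) ≤ 49 / 100 := by
  by_contra hcon
  have h3 : (M' p).1 ≤ 1 / 20 ∨ 19 / 20 ≤ (M' p).1 ∨ 49 / 100 ≤ rsq 1 (M' p) := by
    by_contra h4
    push Not at h4
    exact hcon ⟨by linarith [h4.1], by linarith [h4.2.1], h4.2.2.le⟩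
  have h4 := hM.out _ h3
  rw [hM.right] at h4
  rw [← h4] at hcon
  exact hcon ⟨h0, h1, h2⟩

theorem M_Reg {p : R4} (h : p ∈ Reg δ') : M p ∈ Reg δ' := by
  obtain ⟨h0, h1, h2, h3⟩ := h
  obtain ⟨a0, a1, a2⟩ := M_reg hM h0 h1 h3
  refine ⟨a0, a1, ?_, a2⟩
  by_contra hc
  push Not at hc
  have h4 : M p = p := M_inj hM (M_low hM hc)
  rw [h4] at hc
  linarith

theorem M'_Reg {p : R4} (h : p ∈ Reg δ') : M' p ∈ Reg δ' := by
  obtain ⟨h0, h1, h2, h3⟩ := h
  obtain ⟨a0, a1, a2⟩ := M'_reg hM h0 h1 h3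
  refine ⟨a0, a1, ?_, a2⟩
  by_contra hc
  push Not at hc
  have h4 := M_low hM hc
  rw [hM.right] at h4
  rw [← h4] at hc
  linarith

end mo

section sh
variable {c : ℝ} {S S' : R4 → R4} (hS : SHat c S S')
include hS

theorem S_e1 (s : ℝ) : S (s, e1) = (s, z0 s) := by
  have h := hS.near s 0 (by simp [Geo.nsq_def])
  rw [add_zero, smul_zero, add_zero] at h
  exact h

variable {δ δ' κ β : ℝ} (hp : Par δ δ' κ β) (hc : c ∈ Ioo (0 : ℝ) 1)
include hp

/-- points near the second hole are fixed by `S` -/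
theorem S_near {p : R4} (h : nsq (p.2 - P2 β) ≤ κ ^ 2) : S p = p :=
  hS.thin p.1 p.2 fun _ _ => Geo.line_dist' hp h _

include hc

theorem S'_ne (s : ℝ) : 0 < rsq 1 (S' (s, z2 c β s)) := by
  rw [Geo.rsq1_pos_iff]
  intro h
  have h1 : S' (s, z2 c β s) = ((S' (s, z2 c β s)).1, e1) := Prod.ext rfl h
  have h2 := hS.right (s, z2 c β s)
  rw [h1, S_e1 hS] at h2
  have h3 : (S' (s, z2 c β s)).1 = s := congrArg Prod.fst h2
  have h4 : z0 (S' (s, z2 c β s)).1 = z2 c β s := congrArg Prod.snd h2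
  rw [h3] at h4
  have h5 := Geo.nsq_z20 c β s
  rw [← h4, sub_self] at h5
  have h6 : (lam c s * β) ^ 2 = 0 := by
    rw [← h5]
    simp [Geo.nsq_def]
  have h7 : 0 < lam c s * β := mul_pos (Geo.lam_pos hc s) (hp.k0.trans hp.k1)
  have h8 : 0 < (lam c s * β) ^ 2 := by positivity
  exact absurd h6 h8.ne'

/-- the points of the second arc over the outer levels -/
theorem S'_out {s : ℝ} (h : s ≤ 7 / 20 ∨ 13 / 20 ≤ s) : S' (s, z2 c β s) = (s, z2 c β s) := by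
  have h1 : S (s, z2 c β s) = (s, z2 c β s) := by
    apply hS.thin
    intro τ _
    have e : nsq (z2 c β s - (1 - τ * bfin s) • e1) =
        (1 - bfin s - (1 - τ * bfin s)) ^ 2 + (lam c s * β) ^ 2 := by
      rw [Geo.nsq_def, Geo.z2_def, Geo.e1_def]
      simp
    rw [e, Geo.lam_out c h, one_mul]
    have h2 := Geo.num_lo hp
    have h3 := hp.k0
    nlinarith [sq_nonneg (1 - bfin s - (1 - τ * bfin s))]
  conv_lhs => rw [← h1]
  exact hS.left _

end sh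

section par
variable {T : R4 → R4} {δ δ' κ β c : ℝ} {H : DFam 𝓘(ℝ, R4) R4} {S S' M M' : R4 → R4}
  (hp : Par δ δ' κ β) (hc : c ∈ Ioo (0 : ℝ) 1) (hH : THat T c H) (hS : SHat c S S')
  (hM : MOk δ' H S' M M')

theorem rsq_P2 (β s : ℝ) : rsq 1 (s, P2 β) = β ^ 2 := by
  rw [rsq1_eq]
  show nsq (P2 β - e1) = _
  rw [Geo.P2_sub, Geo.nsq_def]
  simp

include hp

theorem P2_far (s : ℝ) : 1 / 25 - δ' < rsq 1 (s, P2 β) := by
  rw [rsq_P2]
  have h1 := hp.lo
  have h2 := hp.k0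
  have h3 := hp.k1
  have h4 : (β - κ) ^ 2 ≤ β ^ 2 := by nlinarith
  linarith

theorem P2_Reg {s : ℝ} (h0 : 0 ≤ s) (h1 : s ≤ 1) : (s, P2 β) ∈ Reg δ' := by
  refine ⟨h0, h1, ?_, ?_⟩
  · linarith [P2_far hp s, (Geo.hδ' hp).1]
  · rw [rsq_P2]
    have h2 := Geo.num_hi hp
    have h3 := hp.k0
    have h4 := hp.k1
    nlinarith

include hc hH hS hM

/-- the second arc -/
theorem m_eq (s : ℝ) : M (s, P2 β) = rade δ' 1 (S' (s, z2 c β s)) := by
  have h1 := hM.eq (s, P2 β) (by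
    rw [rsq_P2]
    have := hp.k0
    have := hp.k1
    have : 0 < β := by linarith
    positivity)
  rwa [Geo.rade_fix (Geo.hδ' hp) (P2_far hp s).le, Geo.H_P2 hH hp] at h1

/-- (i) -/
theorem m_out {s : ℝ} (h : s ≤ 7 / 20 ∨ 13 / 20 ≤ s) : M (s, P2 β) = (s, z2 c β s) := by
  rw [m_eq hp hc hH hS hM, S'_out hS hp hc h]
  apply Geo.rade_fix (Geo.hδ' hp)
  rw [Geo.rsq_z2, Geo.lam_out c h, one_mul]
  have h1 := hp.lo
  have h2 := hp.k0
  have h3 := hp.k1
  have h4 : (β - κ) ^ 2 ≤ β ^ 2 := by nlinarith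
  nlinarith [sq_nonneg (bfin s)]

theorem m_out_rsq {s : ℝ} (h : s ≤ 7 / 20 ∨ 13 / 20 ≤ s) :
    rsq 1 (sgi κ β (M (s, P2 β))) = bfin s ^ 2 / κ ^ 2 := by
  rw [m_out hp hc hH hS hM h, Geo.rsq_sgi hp.k0]
  show nsq (z2 c β s - P2 β) / κ ^ 2 = _
  rw [Geo.nsq_z2, Geo.lam_out c h]
  ring

/-- (ii) -/
theorem m_mid {s : ℝ} (h : s ∈ Icc (3 / 10 : ℝ) (7 / 10)) :
    1 / 25 - δ' < rsq 1 (sgi κ β (M (s, P2 β))) := by
  by_contra hcon
  push Not at hcon
  have hd := Geo.hδ' hp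
  have h1 := Geo.near_of hp (hcon.trans (by linarith [hd.1]))
  have h2 := Geo.rsq_lo hp h1
  have h3 := m_eq hp hc hH hS hM s
  rw [h3] at h2
  have h4 := Geo.rade_out hd (S'_ne hS hp hc s) h2.le
  rw [h4] at h3
  have h5 := S_near hS hp h1
  rw [h3, hS.right] at h5
  have h6 : nsq (z2 c β s - P2 β) ≤ κ ^ 2 := by
    have : M (s, P2 β) = (s, z2 c β s) := by rw [h3, ← h5]
    rw [this] at h1
    exact h1
  rw [Geo.nsq_z2, bfin_mid h] at h6
  have h7 := Geo.num_k hp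
  have h8 := hp.k0
  have h9 : 0 ≤ (1 - lam c s) ^ 2 * β ^ 2 := by positivity
  nlinarith

variable {a b : ℝ} (hab : Arc2 δ' κ a b)
include hab

/-- the second arc is outside the second wall in the levels between `a` and `b` -/
theorem m_in {s : ℝ} (h : s ∈ Ioo a b) : 1 / 25 - δ' < rsq 1 (sgi κ β (M (s, P2 β))) := by
  by_cases h1 : s ∈ Icc (3 / 10 : ℝ) (7 / 10)
  · exact m_mid hp hc hH hS hM h1
  · have h2 : s ≤ 7 / 20 ∨ 13 / 20 ≤ s := by
      by_contra h3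
      push Not at h3
      exact h1 ⟨by linarith [h3.1], by linarith [h3.2]⟩
    rw [m_out_rsq hp hc hH hS hM h2, lt_div_iff₀ (by have := hp.k0; positivity)]
    have := hab.ins s h
    linarith

/-- the other points are in the second wall or the second hole -/
theorem m_off {s : ℝ} (h : s ∉ Ioo a b) : rsq 1 (sgi κ β (M (s, P2 β))) ≤ 1 / 25 - δ' := by
  have h1 := hab.out s h
  have k0 := hp.k0
  have h2 : s ≤ 7 / 20 ∨ 13 / 20 ≤ s := by
    by_contra h3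
    push Not at h3
    rw [bfin_mid ⟨by linarith [h3.1], by linarith [h3.2]⟩] at h1
    have h4 := Geo.num_k hp
    have hd := (Geo.hδ' hp)
    have h5 : κ ^ 2 ≤ (7 / 500) ^ 2 := by nlinarith
    nlinarith [hd.1, hd.2]
  rw [m_out_rsq hp hc hH hS hM h2, div_le_iff₀ (by positivity)]
  linarith

end par

end D2

/-- **D2.** -/
theorem m_D2 (hGH : StGH) : StD2 := by
  intro G T T' S S' M M' δ δ' κ β c D D' H a b hs hS hM
  have hp := hs.par
  have hc := hs.mc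
  have hH := hs.th
  have hab := hs.ab
  have hG := hs.emb
  have hd := Geo.hδ' hp
  have ha := hab.ma
  have hb := hab.mb
  have h01 : ∀ s ∈ Icc a b, 0 ≤ s ∧ s ≤ 1 := fun s h =>
    ⟨by linarith [h.1, ha.1], by linarith [h.2, hb.2]⟩
  have hmReg : ∀ s ∈ Icc a b, M (s, P2 β) ∈ Reg δ' := fun s h =>
    D2.M_Reg hM (D2.P2_Reg hp (h01 s h).1 (h01 s h).2)
  have hmK : ∀ s ∈ Icc a b, M (s, P2 β) ∈ K3 δ' := fun s h => Geo.Reg_K3 (hmReg s h)
  have hcl : ContDiff ℝ ∞ (fun s : ℝ => ((s, P2 β) : R4)) := contDiff_id.prodMk contDiff_const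
  have hm : ContDiff ℝ ∞ (fun s : ℝ => M (s, P2 β)) := hM.smooth.comp hcl
  obtain ⟨cc, hcc, hcG⟩ := exists_smooth_ext (f := fun s => G (M (s, P2 β))) (a := a) (b := b)
    (by linarith [ha.2, hb.1]) (by
      intro s hs'
      have h1 := (ld_iff.1 (hG.1 _ (hmK s hs'))).1
      have h2 : ContinuousAt (fun s : ℝ => M (s, P2 β)) s := hm.continuous.continuousAt
      filter_upwards [h2.eventually h1] with t ht
      exact ht.comp t hm.contDiffAt)
  have hcG' : ∀ s ∈ Icc a b, cc s = G (M (s, P2 β)) := fun s hs => (hcG s hs).self_of_nhds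
  have hwK : wall2 δ' κ β ⊆ K3 δ' := fun p h => Geo.Reg_K3 (Geo.wall2_Reg hp h)
  have hwc : IsCompact (wall2 δ' κ β) :=
    (Geo.isCompact_Reg δ').of_isClosed_subset (Geo.isClosed_wall2 δ' κ β) (Geo.wall2_Reg hp)
  have hga : a ∈ Icc a b := ⟨le_rfl, by linarith [ha.2, hb.1]⟩
  have hgb : b ∈ Icc a b := ⟨by linarith [ha.2, hb.1], le_rfl⟩
  -- the two end points are in the wall
  have hend : ∀ s ∈ Icc a b, (s ≤ 7 / 20 ∨ 13 / 20 ≤ s) →
      bfin s ^ 2 = κ ^ 2 * (1 / 25 - δ') → cc s ∈ G '' wall2 δ' κ β := by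
    intro s h1 h2 h3
    rw [hcG' s h1]
    refine ⟨_, ?_, rfl⟩
    have e : rsq 1 (sgi κ β (M (s, P2 β))) = 1 / 25 - δ' := by
      rw [D2.m_out_rsq hp hc hH hS hM h2, h3]
      have := hp.k0
      field_simp
    refine ⟨(hmReg s h1).1, (hmReg s h1).2.1, ?_, ?_⟩
    · rw [e]; linarith [hd.1]
    · rw [e]
  have hemb : EmbOn I4 (imp G (Reg δ' \ hol δ' κ β) (fun p => rad2 δ' κ β (M' p)))
      (G '' ((Reg δ' \ hol δ' κ β) ∩
        (wall2 δ' κ β ∪ (fun s : ℝ => M (s, P2 β)) '' Icc a b)))ᶜ := by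
    have key : ∀ p ∈ (Reg δ' \ hol δ' κ β) \
        (wall2 δ' κ β ∪ (fun s : ℝ => M (s, P2 β)) '' Icc a b),
        1 / 25 - δ' < rsq 1 (sgi κ β p) ∧ 0 < rsq 1 (sgi κ β (M' p)) := by
      rintro p ⟨⟨hpR, hph⟩, hpB⟩
      have h1 : 1 / 25 - δ' < rsq 1 (sgi κ β p) := by
        by_contra h
        push Not at h
        apply hpB
        left
        refine ⟨hpR.1, hpR.2.1, ?_, h⟩
        by_contra h2
        exact hph ⟨hpR.1, hpR.2.1, not_le.1 h2⟩
      refine ⟨h1, ?_⟩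
      rw [Geo.sgi_pos_iff hp.k0]
      intro h2
      have h3 : M' p = ((M' p).1, P2 β) := Prod.ext rfl h2
      have h4 : p = M ((M' p).1, P2 β) := by rw [← h3, hM.right]
      by_cases h5 : (M' p).1 ∈ Icc a b
      · exact hpB (Or.inr ⟨_, h5, h4.symm⟩)
      · have h6 := D2.m_off hp hc hH hS hM hab (s := (M' p).1)
          (fun h => h5 ⟨h.1.le, h.2.le⟩)
        rw [← h4] at h6
        linarith
    apply hGH G _ _ _ (Geo.isCompact_Reg_hol δ' κ β)
    · exact (Geo.isClosed_wall2 δ' κ β).union (isCompact_Icc.image hm.continuous).isClosed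
    · exact Pool.Agent.Helper27.BI.EmbOn.mono hG fun p h => Geo.Reg_K3 h.1
    · intro p hpp
      have l1 : LD M' p := Geo.ld_of_inv hM.smooth' hM.smooth hM.right hM.left p
      have l2 : LD (rad2 δ' κ β) (M' p) := (Geo.rad2_emb hd hp.k0 β).1 _ (key p hpp).2
      have l3 : LD (rad2 δ' κ β ∘ M') p := ld_comp l1 l2
      exact l3
    · intro p hpp q hqq h
      exact D2.M'_inj hM ((Geo.rad2_emb hd hp.k0 β).2 (key p hpp).2 (key q hqq).2 h)
    · intro p hpp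
      have hq := D2.M'_Reg hM hpp.1.1
      have hq0 := (key p hpp).2
      show rad2 δ' κ β (M' p) ∈ Reg δ' \ hol δ' κ β
      rcases le_or_gt (1 / 25 - δ') (rsq 1 (sgi κ β (M' p))) with h3 | h3
      · rw [Geo.rad2_fix hd hp.k0 β h3]
        exact ⟨hq, fun h => absurd h.2.2 (not_lt.2 (by linarith [hd.1]))⟩
      · have h4 := Geo.rad2_le hd hp.k0 β hq0 h3.le
        have h5 := Geo.rad2_low hd hp.k0 β hq0
        refine ⟨Geo.near_Reg hp (Geo.near_of hp (by linarith [hd.1])) hq.1 hq.2.1, fun h => ?_⟩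
        exact absurd h.2.2 (not_lt.2 h5)
    · intro p hpp
      have hev : ∀ᶠ q in 𝓝 p, 1 / 25 - δ' < rsq 1 (sgi κ β q) :=
        (Geo.continuous_rsq_sgi κ β).continuousAt.eventually (lt_mem_nhds (key p hpp).1)
      filter_upwards [hev] with q hq1 hq2
      have hq3 : q ∉ Reg δ' := fun h =>
        hq2 ⟨h, fun h' => absurd h'.2.2 (not_lt.2 (by linarith [hd.1]))⟩
      have hq4 : M q = q := by
        by_cases h1 : rsq 1 q < 1 / 25 - 3 * δ'
        · exact D2.M_low hM h1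
        · apply hM.out
          by_contra h2
          push Not at h2
          exact hq3 ⟨by linarith [h2.1], by linarith [h2.2.1], not_lt.1 h1, h2.2.2.le⟩
      show rad2 δ' κ β (M' q) = q
      rw [D2.M'_fix hM hq4]
      exact Geo.rad2_fix hd hp.k0 β hq1.le
  refine ⟨⟨(G '' wall2 δ' κ β)ᶜ, a, 9 / 20, 11 / 20, b, fun p => G (M (p.1, P2 β + p.2)), cc,
    imp G (Reg δ' \ hol δ' κ β) (fun p => rad2 δ' κ β (M' p)), ?_, by linarith [ha.2],
    by norm_num, by linarith [hb.1], hcc, ?_, ?_, ?_, ?_, ?_, ?_⟩, rfl, rfl, rfl, rfl, rfl, rfl,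
    rfl⟩
  · have h1 : ContinuousOn G (wall2 δ' κ β) := fun p hpp =>
      ((ld_iff.1 (hG.1 p (hwK hpp))).1.self_of_nhds.continuousAt).continuousWithinAt
    exact (hwc.image_of_continuousOn h1).isClosed.isOpen_compl
  · intro s hs'
    show G (M (s, P2 β + 0)) = cc s
    rw [add_zero, hcG' s hs']
  · have l1 : EmbOn I4 M univ :=
      ⟨fun p _ => Geo.ld_of_inv hM.smooth hM.smooth' hM.left hM.right p,
        fun p _ q _ h => D2.M_inj hM h⟩
    have l2 : EmbOn I4 (shr fun _ => P2 β) (seg a b) := embOn_shr contDiff_const _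
    have l3 : EmbOn I4 (M ∘ shr fun _ => P2 β) (seg a b) := embOn_comp l1 l2 fun _ _ => mem_univ _
    have l4 : EmbOn I4 (G ∘ (M ∘ shr fun _ => P2 β)) (seg a b) := by
      apply embOn_comp hG l3
      rintro ⟨s, y⟩ ⟨h1, h2, h3⟩
      have h3' : y = 0 := h3
      subst h3'
      show M (s, P2 β + 0) ∈ K3 δ'
      rw [add_zero]
      exact hmK s ⟨h1, h2⟩
    exact l4
  · intro s hs' h
    obtain ⟨p, hpw, hpe⟩ := h
    rw [hcG' s ⟨hs'.1.le, hs'.2.le⟩] at hpe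
    have h1 := hG.2 (hwK hpw) (hmK s ⟨hs'.1.le, hs'.2.le⟩) hpe
    have h2 := D2.m_in hp hc hH hS hM hab hs'
    rw [← h1] at h2
    exact absurd h2 (not_lt.2 hpw.2.2.2)
  · exact fun h => h (hend a hga (Or.inl (by linarith [ha.2])) hab.ea)
  · exact fun h => h (hend b hgb (Or.inr (by linarith [hb.1])) hab.eb)
  · apply Pool.Agent.Helper27.BI.EmbOn.mono hemb
    rintro y ⟨hy1, hy2⟩ ⟨p, ⟨hp1, hp2 | ⟨s, hs', hs''⟩⟩, rfl⟩
    · exact hy1 ⟨p, hp2, rfl⟩
    · apply hy2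
      refine ⟨(s, 0), ⟨hs'.1, hs'.2, rfl⟩, ?_⟩
      show G (M (s, P2 β + 0)) = G p
      rw [add_zero]
      exact congrArg G hs''

end Pool.Agent.Helper27.S5
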